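/-
MP_1e1427_nt, fourth hand-in: for almost all odd `n` there are quadruples with `x + y = p` prime,
`p = 3 mod 8`, `z + w = (p+1)/2`; then `N = 2^p + 2^((p+1)/2) + 1` is a strong probable prime to base 2 and
all its prime factors are `1 mod 4p`.   (helper56)
Definitions and statements. Every docstring contains a complete proof.
Every `S_x` is proved in `GM/P/<x>.lean` as `theorem p_x (dependencies) : S_x`.
-/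
import Mathlib
import Pool.Agent.Lib.MP_8a4e59_co.Basic

set_option autoImplicit false

open Finset MeasureTheory
open Pool.Agent.APP (ee nn)

namespace Pool.Agent.GM

/-! ### Definitions -/

/-- quadratic exponential sum over the set `X` -/
noncomputable def Qs (X : Finset ℕ) (V c : ℕ) (α : ℝ) : ℂ :=
  ∑ y ∈ X, ee (α * ((V : ℝ) * (y : ℝ) ^ 2 + (c : ℝ) * (y : ℝ)))

/-- averaging kernel -/
noncomputable def Ds (H : ℕ) (α : ℝ) : ℂ := (1 / (H : ℂ)) * ∑ j ∈ range H, ee (α * (j : ℝ))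

/-- `min (M, 1/‖t‖)` (with the right value for integers `t`) -/
noncomputable def mn (M t : ℝ) : ℝ := if nn t * M ≤ 1 then M else 1 / nn t

/-- the value of the form -/
def val (V c d e : ℕ) (t : ℕ × ℕ × ℕ) : ℕ :=
  (5 * V * t.1 ^ 2 + e * t.1) + (V * t.2.1 ^ 2 + c * t.2.1) + (V * t.2.2 ^ 2 + d * t.2.2)

/-- the triples -/
def box (L : ℕ) (X : Finset ℕ) : Finset (ℕ × ℕ × ℕ) := X ×ˢ Ico L (3 * L) ×ˢ Ico (2 * L) (20 * L)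

/-- the number of representations -/
def rr (V c d e L : ℕ) (X : Finset ℕ) (m : ℕ) : ℕ :=
  ((box L X).filter (fun t => val V c d e t = m)).card

/-- the number of pairs in `X` with `U x² + e x` congruent modulo `q` -/
def prs (X : Finset ℕ) (U e q : ℕ) : ℕ :=
  ((X ×ˢ X).filter (fun t => U * t.1 ^ 2 + e * t.1 ≡ U * t.2 ^ 2 + e * t.2 [MOD q])).card

/-- the integrand -/
noncomputable def Phi (V c d e L H : ℕ) (X : Finset ℕ) (α : ℝ) : ℝ :=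
  (‖Qs X (5 * V) e α‖ * ‖Qs (Ico L (3 * L)) V c α‖ * ‖Qs (Ico (2 * L) (20 * L)) V d α‖ *
    ‖1 - Ds H α‖) ^ 2

/-- the contribution of the major arcs with denominator `q` -/
noncomputable def Mq (V c d e K H : ℕ) (X : Finset ℕ) (q : ℕ) : ℝ :=
  ∑ r ∈ (range (q + 1)).filter (fun r => r.Coprime q),
    ∫ β in (-(1 / (K : ℝ) ^ 42))..(1 / (K : ℝ) ^ 42), Phi V c d e (K ^ 24) H X ((r : ℝ) / (q : ℝ) + β)

/-! ### Exponential sums -/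

/-- [GM 01] `van`: the sum near `0`. Proof. `Q y = V y² + c y`, `G y = ee (β Q y)`,
`Δ y = β (Q (y+1) - Q y) = β (V (2y+1) + c)`. For `A ≤ y < B`: `2 V A |β| ≤ |Δ y| ≤ 1/2`, so
`nn (Δ y) = |Δ y|` and `|ee (Δ y) - 1| ≥ 4 |Δ y| ≥ 8 V A |β|` (`four_nn_le`). With `w y = 1/(ee (Δ y) - 1)`:
`G y = (G (y+1) - G y) w y`. Abel summation:
`∑_{A ≤ y < B} G y = G B w(B-1) - G A w A + ∑_{A < y < B} G y (w (y-1) - w y)`, `|w| ≤ 1/(8 V A |β|)`,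
`|w (y-1) - w y| = |ee (Δ y) - ee (Δ (y-1))| |w y| |w (y-1)| ≤ 2π · 2V|β| / (64 V² A² β²) = π/(16 V A² |β|)`
(`norm_ee_sub_ee_le`, `nn_le_abs`), at most `B - A ≤ 9A` terms. Total `≤ (1/4 + 9π/16)/(V A |β|) ≤ 3/(V A |β|)`. -/
def S_van : Prop := ∀ (V c A B : ℕ) (β : ℝ), 1 ≤ V → 1 ≤ A → A ≤ B → B ≤ 10 * A → β ≠ 0 →
  |β| * (2 * V * B + V + c) ≤ 1 / 2 → ‖Qs (Ico A B) V c β‖ ≤ 3 / (V * A * |β|)

/-- [GM 02] `apq`: splitting into residue classes. Proof. `G y = ee (β Q y)`, `Q y = V y² + c y`. Var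
`= ∑_{A ≤ y < B} |G (y+1) - G y| ≤ 2π |β| (Q B - Q A) ≤ 2π |β| Q B`. For `a < q` let `T_a = ∑_{y ∈ [A,B), y ≡ a} G y`,
`T = ∑_{y ∈ [A,B)} G y`. Claim `|T_a - T/q| ≤ 2 + Var`: cut `[A,B)` into blocks `[A + jq, A + (j+1)q)` and a rest of length
`< q`; each block has exactly one `y_j ≡ a`, and `|G y_j - (1/q) ∑_{block} G| ≤` variation on the block; in the rest there is at
most one `y ≡ a` (contribution `≤ 1`) and `(1/q) |∑_{rest} G| ≤ 1`. Now `ee ((r/q + β) Q y) = ee (r/q Q a) G y` for `y ≡ a`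
(`Q y ≡ Q a mod q`), so the left side is `|∑_a ee (r/q Q a) (T_a - T/q)| ≤ q (2 + Var)`. -/
def S_apq : Prop := ∀ (V c A B q : ℕ) (r : ℤ) (β : ℝ), 1 ≤ q → A ≤ B →
  ‖Qs (Ico A B) V c ((r : ℝ) / q + β) - Qs (range q) V c ((r : ℝ) / q) / q * Qs (Ico A B) V c β‖ ≤
    q * (2 + 2 * Real.pi * |β| * (V * (B : ℝ) ^ 2 + c * B))

/-- [GM 03] `gauss`: complete sums. Proof. `|S|² = ∑_{a,b} ee (r (V(a²-b²) + c(a-b))/q)`; `a = b + h` with `h` modulo `q`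
(the summand is periodic in `a`): `= ∑_h ee (r (V h² + c h)/q) ∑_b ee (2 r V h b/q)`, and the inner sum is `q` if
`q ∣ 2 r V h`, i.e. `h = 0`, and `0` otherwise. (Or with `ZMod.stdAddChar`.) -/
def S_gauss : Prop := ∀ (V c q : ℕ) (r : ℤ), 1 ≤ q → q.Coprime (2 * V) → Int.gcd r q = 1 →
  ‖Qs (range q) V c ((r : ℝ) / q)‖ ^ 2 = q

/-- [GM 04] `gzero`: vanishing complete sums. Proof. Let `p` be a prime with `p ∣ q`, `p ∣ 2V`. The summand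
`s a = ee (r/q (V a² + c a))` is `q`-periodic, so `S = ∑_a s (a + q/p)`. `V (a + q/p)² + c (a + q/p) = V a² + c a + 2 V a q/p +
V (q/p)² + c q/p`; times `r/q`: the additional terms are `r (2 V a/p) + r V (q/p)/p + r c/p`; here `p ∣ 2V` and `p ∣ V` (if `p = 2`
because `2 ∣ V`, otherwise because `p ∣ 2V`), so the first two are integers and `s (a + q/p) = ee (r c/p) s a`,
`ee (r c / p) ≠ 1` as `p ∤ r c` (`c` is coprime to `2V`, `r` to `q`). So `S = ee (r c/p) S`, `S = 0`. -/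
def S_gzero : Prop := ∀ (V c q : ℕ) (r : ℤ), 2 ∣ V → c.Coprime (2 * V) → 1 ≤ q → ¬ q.Coprime (2 * V) →
  Int.gcd r q = 1 → Qs (range q) V c ((r : ℝ) / q) = 0

/-- [GM 05] `major` (from `van`, `apq`, `gauss`, `gzero`). Proof. `g`, `h` the two sums, `a = V L²`, `m = 36 L/(1 + a|β|)`.
`|g(β)| ≤ m`: if `a|β| ≤ 1` then `|g(β)| ≤ 2L ≤ 36L/2`; otherwise `van` (`A = L`, `B = 3L`) gives
`3/(V L |β|) = 3L/(a|β|) ≤ 6L/(1 + a|β|)`. `|h(β)| ≤ m`: if `a|β| ≤ 1` then `|h(β)| ≤ 18L ≤ m`; otherwise `van`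
(`A = 2L`, `B = 20L`) gives `3/(2VL|β|) ≤ m`. By `apq` and `gauss` (`|S/q| = q^(-1/2)`), for `q` coprime to `2V`:
`|g|, |h| ≤ q^(-1/2) m + E`, hence `|g||h| ≤ m²/q + 2mE + E² ≤ m²/q + 73 L E` and `(|g||h|)² ≤ 2m⁴/q² + 2·73² L²E²`.
If `q` is not coprime to `2V`, `gzero` gives `|g| ≤ E`, and `|h| ≤ 18 L`. -/
def S_major : Prop := ∀ (V c d L q : ℕ) (r : ℤ) (β E : ℝ), 1 ≤ V → 1 ≤ L → 1 ≤ q → Int.gcd r q = 1 →
  2 ∣ V → c.Coprime (2 * V) → |β| * (40 * V * L + V + c + d) ≤ 1 / 2 →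
  q * (2 + 2 * Real.pi * |β| * (400 * V * (L : ℝ) ^ 2 + 20 * (c + d) * L)) ≤ E → E ≤ L →
  (q.Coprime (2 * V) → (‖Qs (Ico L (3 * L)) V c ((r : ℝ) / q + β)‖ *
      ‖Qs (Ico (2 * L) (20 * L)) V d ((r : ℝ) / q + β)‖) ^ 2 ≤
    2 * 36 ^ 4 * (L : ℝ) ^ 4 / ((q : ℝ) ^ 2 * (1 + V * (L : ℝ) ^ 2 * |β|) ^ 4) +
      10 ^ 5 * (L : ℝ) ^ 2 * E ^ 2) ∧
  (¬ q.Coprime (2 * V) → (‖Qs (Ico L (3 * L)) V c ((r : ℝ) / q + β)‖ *
      ‖Qs (Ico (2 * L) (20 * L)) V d ((r : ℝ) / q + β)‖) ^ 2 ≤ 10 ^ 5 * (L : ℝ) ^ 2 * E ^ 2)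

/-- [GM 06] `wd`: Weyl differencing. Proof. `|G|² = ∑_{y,y'} ee (α (Q y - Q y'))`, put `y = y' + h`; the terms `h = 0` give
`B - A`, the terms `±h` are conjugate: `|G|² ≤ (B-A) + 2 ∑_{h=1}^{B-A-1} |∑_{y'} ee (α (V (2 y' h + h²) + c h))|`, the inner sum
is a geometric sum over an interval of length `B - A - h`, at most `min (B-A, 1/(2 nn (2 V h α)))`
(`norm_geom_Ico_mul_le`, `norm_geom_le_card`). -/
def S_wd : Prop := ∀ (V c A B : ℕ) (α : ℝ), A < B →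
  ‖Qs (Ico A B) V c α‖ ^ 2 ≤ ((B : ℝ) - A) + ∑ h ∈ Ico 1 (B - A), mn (2 * ((B : ℝ) - A)) (2 * V * h * α)

/-- [GM 07] `ms`: the sum of `min (M, 1/nn (j α))`. Proof. Split `[1,J]` into at most `J/q + 1` blocks `j₀ ≤ j < j₀ + q` (the last one
possibly incomplete, the terms are `≥ 0`). In a block, `j = j₀ + i`: `j α = j₀ α + i r/q + δ_i`, `|δ_i| ≤ i/q² ≤ 1/q`. Write
`j₀ α = (k₀ + η)/q` with an integer `k₀` and `0 ≤ η < 1`; so `j α = (k₀ + i r + η_i)/q` with `|η_i| ≤ 2`. As `i` runs over `0..q-1`,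
`k₀ + i r` runs over every residue class modulo `q` once; let `s` be its representative in `(-q/2, q/2]`. If `|s| ≤ 2` use the bound
`M` (at most `5` values of `i`); otherwise `nn (j α) ≥ (|s| - 2)/q` and `mn ≤ q/(|s| - 2)`. So the block contributes at most
`5 M + 2 q ∑_{k=1}^{q} 1/k ≤ 5 M + 2 q (1 + log q)`. -/
def S_ms : Prop := ∀ (J q : ℕ) (r : ℤ) (α M : ℝ), 1 ≤ q → Int.gcd r q = 1 →
  |α - r / q| ≤ 1 / (q : ℝ) ^ 2 → 1 ≤ M →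
  ∑ j ∈ Ico 1 (J + 1), mn M (j * α) ≤ 8 * ((J : ℝ) / q + 1) * (M + q * (1 + Real.log q))

/-- [GM 08] `weyl` (from `wd`, `ms`). Proof. `N = 2K^24`, `M = 2N`. By `wd` and `ms` (the `h` give distinct `j = 2Vh ≤ 2VN`):
`|g|² ≤ N + 8 (2VN/q + 1)(2N + q (1 + log q)) = N + 8 (4VN²/q + 2VN(1 + log q) + 2N + q(1 + log q))`, and with
`K^5 < q ≤ K^42`, `N² = 4K^48` every term is `≤ C_V K^43`, so `≤ K^44` for large `K` (`log q ≤ 42 log K ≤ 42 K^(1/2)`, say). -/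
def S_weyl : Prop := ∀ V c : ℕ, 1 ≤ V → ∃ K0 : ℕ, ∀ K : ℕ, K0 ≤ K → ∀ (α : ℝ) (q : ℕ) (r : ℤ),
  K ^ 5 < q → q ≤ K ^ 42 → Int.gcd r q = 1 → |α - r / q| ≤ 1 / (q : ℝ) ^ 2 →
  ‖Qs (Ico (K ^ 24) (3 * K ^ 24)) V c α‖ ^ 2 ≤ (K : ℝ) ^ 44

/-! ### Parseval and second moments -/

/-- [GM 09] `par`: Parseval. Proof: expand, `∫_0^1 ee (k α) dα = 1` if `k = 0` and `0` otherwise (`k` integer), and group the
terms by the value of `v`. -/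
def S_par : Prop := ∀ (ι : Type) (T : Finset ι) (v : ι → ℕ) (c : ι → ℂ) (M : ℕ), (∀ t ∈ T, v t < M) →
  ∫ α in (0 : ℝ)..1, ‖∑ t ∈ T, c t * ee (α * (v t : ℝ))‖ ^ 2 =
    ∑ m ∈ range M, ‖∑ t ∈ T.filter (fun t => v t = m), c t‖ ^ 2

/-- [GM 10] `sm`: number of solutions. Proof. If `x = x'` then `z = z'` (`V z² + d z` is strictly increasing): at most `(40L)²`
solutions, `L = K^24`. If `x ≠ x'`, `k = (5Vx² + ex) - (5Vx'² + ex') = (x - x')(5V(x + x') + e) ≠ 0`,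
`k = (z' - z)(V (z + z') + d)`; the divisor `z' - z` of `k` determines `z + z'`, so there are at most `2 τ(|k|)` pairs `(z,z')`,
`|k| ≤ C L² = C K^48`, `τ(|k|) ≤ C' K^(1/2)` (`exists_card_divisors_le` in Lib/MP_1e1427_nt/DivBound.lean with `k = 100`).
Total `≤ 1600 K^48 (1 + 2 C' K^(1/2)) ≤ K^49` for large `K`. -/
def S_sm : Prop := ∀ V d e : ℕ, 1 ≤ V → ∃ K0 : ℕ, ∀ K : ℕ, K0 ≤ K →
  (((range (40 * K ^ 24) ×ˢ range (40 * K ^ 24)) ×ˢ (range (40 * K ^ 24) ×ˢ range (40 * K ^ 24))).filter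
    (fun t => (5 * V * t.1.1 ^ 2 + e * t.1.1) + (V * t.1.2 ^ 2 + d * t.1.2) =
      (5 * V * t.2.1 ^ 2 + e * t.2.1) + (V * t.2.2 ^ 2 + d * t.2.2))).card ≤ K ^ 49

/-- [GM 11] `fh` (from `par`, `sm`). Proof: `Qs X .. α * Qs (Ico ..) .. α = ∑_{(x,z)} ee (α v(x,z))`, so by Parseval the integral is
`∑_m #{(x,z) : v(x,z) = m}²`, the number of pairs of pairs with the same value, all variables `< 40 K^24`. -/
def S_fh : Prop := ∀ V d e : ℕ, 1 ≤ V → ∃ K0 : ℕ, ∀ K : ℕ, K0 ≤ K → ∀ X : Finset ℕ,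
  X ⊆ Ico (30 * K ^ 24) (31 * K ^ 24) →
  ∫ α in (0 : ℝ)..1, (‖Qs X (5 * V) e α‖ * ‖Qs (Ico (2 * K ^ 24) (20 * K ^ 24)) V d α‖) ^ 2 ≤ (K : ℝ) ^ 49

/-- [GM 12] `f2`. Proof. The term `r = q` equals the term `r = 0`, so the sum is at most twice the sum over `range q`. There
`|f(r/q+β)|² = ∑_{x,x'} ee (r/q (P x - P x')) ee (β (P x - P x'))`, `P x = U x² + e x`, and `∑_{r<q} ee (r k/q) = q` if `q ∣ k`
and `0` otherwise; the remaining sum has `prs` terms of modulus `1`. -/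
def S_f2 : Prop := ∀ (X : Finset ℕ) (U e q : ℕ) (β : ℝ), 1 ≤ q →
  ∑ r ∈ range (q + 1), ‖Qs X U e ((r : ℝ) / q + β)‖ ^ 2 ≤ 2 * q * (prs X U e q : ℝ)

/-- [GM 13] `cnt`: pairs modulo `q`. Proof. In `ZMod q`: `U u² + e u - U v² - e v = (u - v)(U (u + v) + e)`. The map
`(u,v) ↦ (s,t) = (u - v, U (u + v) + e)` is injective (`2U` is a unit), and `#{(s,t) : s t = 0} = ∑_{s<q} gcd(s,q)` (with
`gcd(0,q) = q`) `≤ ∑_{δ ∣ q} δ (q/δ) = q τ(q)`. -/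
def S_cnt : Prop := ∀ (U e q : ℕ), 1 ≤ q → q.Coprime (2 * U) → prs (range q) U e q ≤ q * q.divisors.card

/-- [GM 14] `pairs` (from `cnt`). Proof. Group `(x,x') ∈ X²` by `(x % q, x' % q)`; the congruence depends only on the residues. -/
def S_pairs : Prop := ∀ (X : Finset ℕ) (U e q : ℕ) (C F : ℝ), 1 ≤ q → q.Coprime (2 * U) → 0 ≤ C → 0 ≤ F →
  (∀ u < q, ((X.filter (fun x => x % q = u)).card : ℝ) * q.totient ≤ C * F) →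
  (prs X U e q : ℝ) * (q.totient : ℝ) ^ 2 ≤ C ^ 2 * F ^ 2 * (q * (q.divisors.card : ℝ))

/-- [GM 15] `tau`. Proof. `q/φ(q) = ∏_{p ∣ q} p/(p-1) ≤ 2^{ω(q)} ≤ τ(q)`, so `τ/φ² ≤ τ³/q²`; `τ(q)^6 ≤ C' q`
(`exists_card_divisors_pow_le` in Lib/MP_1e1427_nt/DivBound.lean), so `τ³ ≤ C'' q^(1/2)` and the sum is at most
`C'' ∑_{q > w} q^(-3/2) ≤ 2 C''/√w` (`1/(q √q) ≤ 2 (1/√(q-1) - 1/√q)`). -/
def S_tau : Prop := ∃ C : ℝ, 0 < C ∧ ∀ w Q : ℕ, 1 ≤ w →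
  ∑ q ∈ Ioc w Q, (q.divisors.card : ℝ) / (q.totient : ℝ) ^ 2 ≤ C / Real.sqrt w

/-- [GM 16] `int`. Proof: on `[0,δ]` the primitive of `(1 + a β)^(-2)` is `-1/(a (1 + a β))`, so the integral is at most `1/a`;
symmetry. -/
def S_int : Prop := ∀ a δ : ℝ, 0 < a → 0 ≤ δ → ∫ β in (-δ)..δ, ((1 + a * |β|) ^ 2)⁻¹ ≤ 2 / a

/-- [GM 17] `D`. Proof: `|Ds| ≤ 1`; `|1 - Ds H β| ≤ (1/H) ∑_{j<H} |1 - ee (jβ)| ≤ (1/H) ∑_j 2π j |β| ≤ π H |β|`, and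
`min(2,s)² ≤ 2s`. Periodicity from `ee_add_int`. -/
def S_D : Prop := ∀ (H : ℕ) (β : ℝ), 1 ≤ H → ‖1 - Ds H β‖ ^ 2 ≤ 4 ∧
  ‖1 - Ds H β‖ ^ 2 ≤ 2 * Real.pi * H * |β| ∧ ∀ k : ℕ, Ds H ((k : ℝ) + β) = Ds H β

/-! ### The circle method -/

/-- [GM 18] `arcs`. Proof. Let `α ∈ [0,1]`. Dirichlet (`Real.exists_rat_abs_sub_le_and_den_le α (n_pos : 0 < n)`): `ρ = r/q`, `q ≤ n`,
`|α - r/q| ≤ 1/((n+1) q)`. If `q > Q1`: `|α - r/q| ≤ 1/q²`, so `Φ α ≤ Ψ α`. If `q ≤ Q1`: `0 ≤ r ≤ q` (because `|α - r/q| < 1/q`) and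
`|α - r/q| ≤ 1/n`. Hence on `[0,1]`: `Φ α ≤ ∑_{q ≤ Q1} ∑_{0 ≤ r ≤ q, (r,q)=1} 1[|α - r/q| ≤ 1/n] Φ α + Ψ α`. Integrate; the
integral of an indicator term is at most `∫_{r/q-1/n}^{r/q+1/n} Φ` (`Φ ≥ 0`), substitute `α = r/q + β`. -/
def S_arcs : Prop := ∀ (Φ Ψ : ℝ → ℝ) (Q1 n : ℕ), Continuous Φ → Continuous Ψ → (∀ α, 0 ≤ Φ α) →
  (∀ α, 0 ≤ Ψ α) → 1 ≤ n → Q1 ≤ n →
  (∀ (α : ℝ) (q : ℕ) (r : ℤ), Q1 < q → q ≤ n → Int.gcd r q = 1 → |α - r / q| ≤ 1 / (q : ℝ) ^ 2 →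
    Φ α ≤ Ψ α) →
  ∫ α in (0 : ℝ)..1, Φ α ≤ (∑ q ∈ Icc 1 Q1, ∑ r ∈ (range (q + 1)).filter (fun r => r.Coprime q),
    ∫ β in (-(1 / (n : ℝ)))..(1 / (n : ℝ)), Φ ((r : ℝ) / (q : ℝ) + β)) + ∫ α in (0 : ℝ)..1, Ψ α

/-- [GM 19] `maj1` (from `major`, `int`, `D`). Proof. `L = K^24`, `δ = K^(-42)`, `E = K^12`, `a = V L² = V K^48`, `F = #X`. For large
`K` and `|β| ≤ δ`, `q ≤ K^5` the hypotheses of `major` hold. `r ∈ {0,1}`, `|f| ≤ F`; first part: `(36⁴·2) L⁴ (1 + a|β|)^(-4) ·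
2π H |β|`, and `|β| (1 + a|β|)^(-4) ≤ (1/a)(1 + a|β|)^(-2)`, so by `int` the total of the two arcs is at most
`2 F² · 2·36⁴ L⁴ · 2π H · (1/a) · (2/a) = 16 π 36⁴ F² H/V² ≤ 10⁹ F² K^48/(V w)` (as `H w ≤ V K^48`).
Second part: `2 · 2δ · F² · 4 · 10⁵ L² E² = 1.6·10⁶ K^30 F² ≤ K^36 F²`. (Continuity of `Phi` for the integrability.) -/
def S_maj1 : Prop := ∀ V c d e : ℕ, 1 ≤ V → 2 ∣ V → c.Coprime (2 * V) → ∃ K0 : ℕ, ∀ K : ℕ, K0 ≤ K →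
  ∀ (X : Finset ℕ) (H w : ℕ), 1 ≤ H → 1 ≤ w → H * w ≤ V * K ^ 48 →
  Mq V c d e K H X 1 ≤ (X.card : ℝ) ^ 2 * (10 ^ 9 * (K : ℝ) ^ 48 / (V * w) + (K : ℝ) ^ 36)

/-- [GM 20] `majq` (from `major`, `int`, `D`, `f2`). Proof. As `maj1`, with `|1 - Ds|² ≤ 4`:
`Mq ≤ ∫ ∑_r |f(r/q+β)|² · 4 · (2·36⁴ L⁴/(q² (1 + a|β|)⁴) + 10⁵ L² E²)`. First part: by `f2` for each `β`
`≤ 2 q prs · 8·36⁴ L⁴/q² · ∫ (1 + a|β|)^(-2) ≤ 32·36⁴ (L⁴/a) prs/q = 32·36⁴ (K^48/V) prs/q`. Second part (trivially `|f| ≤ F`):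
`(q+1) · 2δ · F² · 4·10⁵ L² E² ≤ K^36 F²`. -/
def S_majq : Prop := ∀ V c d e : ℕ, 1 ≤ V → 2 ∣ V → c.Coprime (2 * V) → ∃ K0 : ℕ, ∀ K : ℕ, K0 ≤ K →
  ∀ (X : Finset ℕ) (H q : ℕ), 1 ≤ H → 1 ≤ q → q ≤ K ^ 5 → q.Coprime (2 * V) →
  Mq V c d e K H X q ≤ 10 ^ 9 * ((K : ℝ) ^ 48 / V) * ((prs X (5 * V) e q : ℝ) / q) +
    (X.card : ℝ) ^ 2 * (K : ℝ) ^ 36

/-- [GM 21] `majn` (from `major`, `D`). Proof: only the second part of `majq`. -/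
def S_majn : Prop := ∀ V c d e : ℕ, 1 ≤ V → 2 ∣ V → c.Coprime (2 * V) → ∃ K0 : ℕ, ∀ K : ℕ, K0 ≤ K →
  ∀ (X : Finset ℕ) (H q : ℕ), 1 ≤ H → 1 ≤ q → q ≤ K ^ 5 → ¬ q.Coprime (2 * V) →
  Mq V c d e K H X q ≤ (X.card : ℝ) ^ 2 * (K : ℝ) ^ 36

/-- hypotheses on the set `X` at level `K` with constant `C1` -/
def HypX (C1 : ℝ) (V K : ℕ) (X : Finset ℕ) : Prop :=
  X ⊆ Ico (30 * K ^ 24) (31 * K ^ 24) ∧ (K : ℝ) ^ 23 ≤ X.card ∧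
    ∀ q u : ℕ, 1 ≤ q → q ≤ K ^ 5 → q.Coprime (2 * V) →
      ((X.filter (fun x => x % q = u)).card : ℝ) * q.totient ≤ C1 * X.card

/-- hypotheses on `w`, `V`, `c` -/
def HypV (w V c : ℕ) : Prop :=
  5 ≤ w ∧ 1 ≤ V ∧ 2 ∣ V ∧ (∀ p : ℕ, p.Prime → p ≤ w → p ∣ 2 * V) ∧ c.Coprime (2 * V)

/-- [GM 22] `L2` (from `arcs`, `weyl`, `fh`, `D`, `maj1`, `majq`, `majn`, `pairs`, `tau`). Proof. `arcs` with `Φ = Phi V c d e (K^24) H X`,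
`Q1 = K^5`, `n = K^42`, `Ψ = 4 K^44 (‖Qs X (5V) e α‖ ‖Qs (Ico (2K^24) (20K^24)) V d α‖)²` (hypothesis by `weyl` and `D`);
`∫ Ψ ≤ 4 K^44 K^49` by `fh`. The arcs: `q = 1` by `maj1`; `q` not coprime to `2V` by `majn`; `q ≥ 2` coprime to `2V` by `majq`: then
`q > w` (every prime factor is `> w`), `q` is coprime to `2 (5V)` (`5 ∣ 2V`), and by `pairs` with `F = #X`
`prs/q ≤ C1² F² τ(q)/φ(q)²`, so by `tau` their sum is at most `10⁹ C1² C F² K^48/(V √w)`. The error terms are at most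
`K^5 F² K^36 ≤ F² K^48/(V√w)` and `4 K^93 ≤ 4 F² K^47 ≤ F² K^48/(V √w)` for large `K` (`F ≥ K^23`). -/
def S_L2 : Prop := ∀ C1 : ℝ, 0 < C1 → ∃ C2 : ℝ, 0 < C2 ∧ ∀ w V c d e : ℕ, HypV w V c →
  ∃ K0 : ℕ, ∀ K : ℕ, K0 ≤ K → ∀ (X : Finset ℕ) (H : ℕ), HypX C1 V K X → 1 ≤ H → H * w ≤ V * K ^ 48 →
  ∫ α in (0 : ℝ)..1, Phi V c d e (K ^ 24) H X α ≤
    C2 * ((X.card : ℝ) ^ 2 * (K : ℝ) ^ 48 / (V * Real.sqrt w))

/-- [GM 23] `loc`: lower bound for the local average. Proof. `L = K^24`. `∑_{j<H} rr (m - j)` is the number of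
`(x,y,z) ∈ box` with `m - H < val ≤ m` (`H ≤ m`). Fix `x ∈ X`, `y`, and put `t = m - (5Vx²+ex) - (Vy²+cy)`. As `30L ≤ x < 31L`,
`L ≤ y < 3L`: `t ≥ 4820VL² - 4805VL² - 31eL - 9VL² - 3cL = 6VL² - (31e+3c)L` and `t < 4900VL² - 4500VL² - VL² = 399VL²`.
`R z = Vz² + dz` is increasing, `R (2L) = 4VL² + 2dL ≤ t - H` for large `K` (`H ≤ VL²/5`), `R (20L) > t`. Let `z*` be the largest `z`
with `R z ≤ t` (`2L ≤ z* < 20L`). For `z < 20L`, `R (z+1) - R z ≤ 40VL + d =: ρ`, so `R (z* - i) > t - (i+1) ρ ≥ t - H` whenever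
`(i+1) ρ ≤ H`; this gives at least `⌊H/ρ⌋ ≥ H/(50VL)` values of `z` (all `≥ 2L` since `R z > t - H ≥ R (2L)`), for large `K`
(`H ~ VL²/w`, `w` fixed). Sum over `x` and the `2L` values of `y`: at least `#X · 2L · H/(50VL) = #X H/(25V)`. -/
def S_loc : Prop := ∀ w V c d e : ℕ, 5 ≤ w → 1 ≤ V → ∃ K0 : ℕ, ∀ K : ℕ, K0 ≤ K → ∀ (X : Finset ℕ) (m : ℕ),
  X ⊆ Ico (30 * K ^ 24) (31 * K ^ 24) → 4820 * V * K ^ 48 ≤ m → m < 4900 * V * K ^ 48 →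
  X.card * (V * K ^ 48 / w) ≤ 25 * V * ∑ j ∈ range (V * K ^ 48 / w), rr V c d e (K ^ 24) X (m - j)

/-- [GM 24] `thmA` (from `L2`, `par`, `loc`). Proof. `H = V K^48/w` (`≥ 1` for large `K`, `H w ≤ V K^48`), `L = K^24`, `F = #X`. With
`t ∈ box L X`: `f g h (1 - Ds) = ∑_t ee (α val t) - (1/H) ∑_t ∑_{j<H} ee (α (val t + j))`, whose coefficient at `m` is
`u m = rr m - (1/H) ∑_{j<H, j ≤ m} rr (m - j)`. By `par` (index set `box ⊕ box × range H`) `∑_m u(m)² = ∫ Phi ≤ C2 F² K^48/(V √w)`.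
For `m` in the range with `50 V rr m < F`: by `loc` `(1/H) ∑_{j<H} rr (m - j) ≥ F/(25V)`, so `|u m| ≥ F/(50V)`. Hence the number of
these `m` is at most `2500 V²/F² · C2 F² K^48/(V √w) = 2500 C2 V K^48/√w`. -/
def S_thmA : Prop := ∀ C1 : ℝ, 0 < C1 → ∃ C2 : ℝ, 0 < C2 ∧ ∀ w V c d e : ℕ, HypV w V c →
  ∃ K0 : ℕ, ∀ K : ℕ, K0 ≤ K → ∀ X : Finset ℕ, HypX C1 V K X →
  (((Ico (4820 * V * K ^ 48) (4900 * V * K ^ 48)).filter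
    (fun m => 50 * V * rr V c d e (K ^ 24) X m < X.card)).card : ℝ) ≤
    C2 * (V * (K : ℝ) ^ 48 / Real.sqrt w)

/-! ### Primes -/

/-- [GM 25] `pnt`: lower bound for primes in progressions to a fixed modulus, from `Pool.Agent.MP8a4e59.P.all_main`
(Lib/MP_8a4e59_co/P/All.lean). Proof. `N = a + 31 Q L`, level `ℓ = 100 log log N`: then `log N = exp (ℓ/100)`, `ℓ^44 ≤ log N`,
`Q ≤ exp ℓ` for large `L`; use `all_main (1/400)`. With `y = a + 30QL - 1`, `z = a + 31QL - 1` (`z - y = QL`) and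
`ApS` for the class `a` modulo `Q`: `∑_{n ∈ (y,z], n ≡ a} Λ n ≥ (1/φ(Q)) ∑_{n ∈ (y,z]} (1 - th n) - N exp (-ℓ/40)`, the last term is
`N (log N)^(-5/2) = o(L)`. In the exceptional case `|th n| ≤ n^(β₁-1) ≤ exp (-(1-β₁) log y) ≤ exp (-exp (-ℓ/400) log y)`, and
`log y ≥ (1/2) log N = (1/2) exp (ℓ/100)`, so `th = o(1)`. So the sum is `≥ (9/10) QL/φ(Q)` for large `L`. The proper prime powers
`≤ N` contribute `O(√N log² N) = o(L)` (`Chebyshev.psi`/`theta` comparison or a direct count), and `log n ≤ log N ≤ (11/10) log L`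
for the primes; so the number of primes is `≥ (8/10) (10/11) QL/(φ(Q) log L)`. The `n ∈ (y,z]`, `n ≡ a` are `n = a + Q x`,
`30L ≤ x < 31L`. -/
def S_pnt : Prop := ∀ Q a : ℕ, 1 ≤ Q → a.Coprime Q → ∃ L0 : ℕ, ∀ L : ℕ, L0 ≤ L →
  (Q : ℝ) / Q.totient * (L / (2 * Real.log L)) ≤
    (((Ico (30 * L) (31 * L)).filter (fun x => (a + Q * x).Prime)).card : ℝ)

/-- [GM 26] `bt`: Brun-Titchmarsh, from `Pool.Agent.PD.sieve_upper` (Lib/MP_0da313_nt/PD/UB.lean, `D = 1`,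
`Q p x := ¬ p ∣ Q ∧ p ∣ a + Q (j0 + x - 1)`, `x ∈ Ico 1 (1 + J)`). Proof. `z = 2^(2^(1+n))` with `n` maximal such that
`z^30 ≤ J^(1/2)` (for `J` below an absolute constant the claim is trivial for large `C`, as `Q/φ(Q) ≥ 1`); then `z^60 > J^(1/2)`,
`log z ≥ (log J)/120`. The `j` with `a + Q j` prime and `> z` are sifted; the others number at most `z + 1 ≤ J^(1/2)`
(`a + Q j ≤ z` implies `j ≤ z`). The density is `∏_{p ≤ z, p ∤ Q} (1 - 1/p) ≤ (Q/φ(Q)) ∏_{p ≤ z} (1 - 1/p) ≤ (Q/φ(Q))/log z`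
(`∏_{p ≤ z} (1-1/p)^(-1) ≥ ∑_{k ≤ z} 1/k ≥ log z`), the error term `2^2 z^30 ≤ 4 J^(1/2)`. -/
def S_bt : Prop := ∃ C : ℝ, 0 < C ∧ ∀ Q a j0 J : ℕ, 1 ≤ Q → 2 ≤ J →
  (((Ico j0 (j0 + J)).filter (fun j => (a + Q * j).Prime)).card : ℝ) ≤
    C * ((Q : ℝ) / Q.totient) * (J / Real.log J)

/-- [GM 27] `X` (from `pnt`, `bt`). Proof. `L = K^24`, `Q = 4V`, `a` coprime to `4V`, `F = #X ≥ (Q/φ(Q)) L/(2 log L) ≥ K^23` for large `K`.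
Let `q ≤ K^5` be coprime to `2V`, `u < q` (otherwise the filter is empty). `x ≡ u mod q`, `x = u + q j`, `j` in an interval of length
`J = ⌊L/q⌋ + 1 ≤ 2L/q`, `J ≥ L/q ≥ K^19`; `a + Q x = (a + Q u) + (Q q) j`. By `bt` the number is at most
`C (Qq/φ(Qq)) J/log J ≤ C (Q/φ(Q)) (q/φ(q)) (2L/q)/(19 log K) = C (Q/φ(Q)) (48/19) L/(φ(q) log L) ≤ (96/19) C F/φ(q)`
(`log L = 24 log K`, `φ(Qq) = φ(Q) φ(q)`). -/
def S_X : Prop := ∃ C1 : ℝ, 0 < C1 ∧ ∀ V a : ℕ, 1 ≤ V → a.Coprime (2 * V) → ∃ K0 : ℕ, ∀ K : ℕ, K0 ≤ K →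
  HypX C1 V K ((Ico (30 * K ^ 24) (31 * K ^ 24)).filter (fun x => (a + 4 * V * x).Prime)) ∧
  (K : ℝ) ^ 24 / (48 * Real.log K) ≤
    (((Ico (30 * K ^ 24) (31 * K ^ 24)).filter (fun x => (a + 4 * V * x).Prime)).card : ℝ)

/-! ### The numbers `N` and the classes -/

/-- [GM 28] `ord`. Proof. `N ∣ 4^p + 1 = (2^p + 1)² - (2^((p+1)/2))²`. Let `q` be a prime factor of `N` (odd). `2^(2p) = -1 mod q`, so the
order `o` of `2` modulo `q` divides `4p` and not `2p`: `o = 4` or `o = 4p`. If `o = 4` then `q ∣ 15`, and `q = 3` has order `2`, so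
`q = 5`; but modulo `5` (`p = 3 mod 4`, `(p+1)/2 = 2 mod 4`): `N = 3 + 4 + 1 = 3 ≠ 0`. So `o = 4p ∣ q - 1`. -/
def S_ord : Prop := ∀ p q : ℕ, p.Prime → p % 8 = 3 → q.Prime → q ∣ 2 ^ p + 2 ^ ((p + 1) / 2) + 1 →
  q % (4 * p) = 1

/-- [GM 29] `sprp`. Proof. `s = (p+1)/2 ≥ 2`, `d = 2^((p-1)/2) + 1` (odd, as `p ≥ 3`), `2^s d = 2^p + 2^s`. `2` is not a square modulo
`p` (`p = 3 mod 8`), so `2^((p-1)/2) = -1 mod p` (Euler), `p ∣ d`, `d = p m` with `m` odd, `4^p + 1 ∣ 4^(p m) + 1`, and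
`N ∣ 4^p + 1` as in `ord`. -/
def S_sprp : Prop := ∀ p : ℕ, p.Prime → p % 8 = 3 → ∃ s d : ℕ, 1 < s ∧ Odd d ∧
  2 ^ p + 2 ^ ((p + 1) / 2) + 1 = 2 ^ s * d + 1 ∧ 2 ^ p + 2 ^ ((p + 1) / 2) + 1 ∣ 2 ^ (2 * d) + 1

/-- [GM 30] `cls`: the residue classes. `primorial w = ∏_{p ≤ w} p`. Proof. `V = 2 primorial w = 4 ∏_{3 ≤ p ≤ w} p` (distinct odd
primes; `2 ∣ primorial w`), `4V = 16 ∏ p`, `2V = 8 ∏ p`. By the Chinese remainder theorem choose `b`, `c`, `d` modulo `8` and modulo every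
odd prime `p ≤ w`. Modulo `8`: `b = 2`, `(c,d) ∈ {1,3} × {0,2}`: modulo `16`, `5b² - 4b + 1 = 13` for all `b = 2 mod 8`, `c² = 1, 9`,
`d² = 0, 4`, so the sum takes the four values `14, 2, 6, 10`, one of them is `2ν mod 16`. Modulo `p` odd: choose `b` with
`2b ≠ 1` and `5b² - 4b + 1 ≠ 2ν` (at most `3` residues are forbidden if `p ≥ 5`; for `p = 3` one of `b = 0, 1` works as the values are
`1` and `2`), then `t = 2ν - (5b² - 4b + 1) ≠ 0` is a sum `c² + d²` (`ZMod.sq_add_sq`), and `c ≠ 0` after exchanging `c` and `d`.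
The lifts can be taken `< 2V`, `b ≥ 2`, `c`, `d < 2V`. -/
def S_cls : Prop := ∀ w ν : ℕ, 5 ≤ w → ν % 2 = 1 → ∃ b c d : ℕ, b % 8 = 2 ∧
  (2 * b - 1).Coprime (2 * (2 * primorial w)) ∧ c.Coprime (2 * (2 * primorial w)) ∧
  c < 2 * (2 * primorial w) ∧ d < 2 * (2 * primorial w) ∧ d % 2 = 0 ∧
  5 * b ^ 2 + 1 + c ^ 2 + d ^ 2 ≡ 2 * ν + 4 * b [MOD 4 * (2 * primorial w)]

/-- the numbers `N` attached to `n` -/
def NN (n : ℕ) : Set ℕ := {N | ∃ p x y z w : ℕ, p.Prime ∧ p % 8 = 3 ∧ n ≤ p ^ 2 ∧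
  x ^ 2 + y ^ 2 + z ^ 2 + w ^ 2 = n ∧ x + y = p ∧ z + w = (p + 1) / 2 ∧ N = 2 ^ (x + y) + 2 ^ (z + w) + 1}

/-- [GM 31] `one`: from many triples to many `N`. Proof. Let `X` be the set. For `(x,y,z) ∈ box` with `val = m` put `b' = b + 2Vx`,
`c' = c + 2Vy`, `d' = d + 2Vz`. Then `2n + 4b' = 5b'² + 1 + c'² + d'²` (expand), i.e. `2n = (2b'-1)² + b'² + c'² + d'²`;
`p = 2b' - 1 = (2b - 1) + 4Vx` is prime, `p = 3 mod 8` (`b' = 2 mod 4`, as `2 ∣ V`), `b'` even, `c'`, `d' ≤ b' ≤ p`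
(`c' < 2V(y+1) ≤ 2Vx`, as `y + 1 ≤ 3L ≤ x`, same for `z`). `exists_quad` (Lib/MP_1e1427_nt/Final.lean, with `a = p`, `b = b'`) gives the
quadruple. `n ≤ p²`: `2n ≤ 5b'² - 4b' + 1 + c'² + d'²`, `c', d' ≤ 2V·20L ≤ (2/3) b'`, so `c'² + d'² ≤ (8/9) b'² ≤ 3b'² - 4b' + 1`.
For fixed `x` the map `(y,z) ↦ (c',d')` is injective into `twoSq (2n - 5b'² + 4b' - 1)`, of size `≤ 2 τ²`
(`Lib/MP_1e1427_nt/TwoSq.lean`), `≤ C n^(ε/2)` (`exists_card_divisors_le`). So the number of `x` is at least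
`rr/(C n^(ε/2)) ≥ (#X/(50V))/(C n^(ε/2)) ≥ K^24/(2400 V C log K n^(ε/2)) ≥ n^(1/2-ε)` for large `K`, since `n < 9800 V² K^48`
and `n ≥ V² K^48` (so `n → ∞`). Different `x` give different `p` and different `N` (`2^p + 2^((p+1)/2) + 1` is strictly increasing);
`NN n` is finite (`N ≤ 2^(2n) + 2^(2n) + 1`). -/
def S_one : Prop := ∀ (V b c d : ℕ) (ε : ℝ), 0 < ε → 1 ≤ V → 2 ∣ V → b % 8 = 2 → c < 2 * V → d < 2 * V →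
  c % 2 = 1 → d % 2 = 0 → ∃ K0 : ℕ, ∀ K : ℕ, K0 ≤ K → ∀ X : Finset ℕ,
  X = (Ico (30 * K ^ 24) (31 * K ^ 24)).filter (fun x => (2 * b - 1 + 4 * V * x).Prime) →
  (K : ℝ) ^ 24 / (48 * Real.log K) ≤ X.card → ∀ m n : ℕ,
  2 * n + 4 * b = 5 * b ^ 2 + 1 + c ^ 2 + d ^ 2 + 4 * V * m → V ^ 2 * K ^ 48 ≤ n → n < 9800 * V ^ 2 * K ^ 48 →
  X.card ≤ 50 * V * rr V c d (5 * b - 2) (K ^ 24) X m → (n : ℝ) ^ (1 / 2 - ε) ≤ ((NN n).ncard : ℝ)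

/-- [GM 32] `dens`: from the blocks to the density. Proof. `I_K = {n : 9641 Λ K^48 ≤ n < 9799 Λ K^48}`. For `n` large,
`#{K : n ∈ I_K} ≥ c (n/Λ)^(1/48)` with an absolute constant `c > 0`: these are the integers `K` in `(u,v]`,
`u = (n/(9799Λ))^(1/48)`, `v = (n/(9641Λ))^(1/48) ≥ (1 + 3·10⁻⁴) u` (`(1 + 3·10⁻⁴)^48 ≤ 9799/9641`), at least
`3·10⁻⁴ u - 1 ≥ 10⁻⁴ u`; and all are `≥ K0`. Double counting over `n ∈ Bad`, `√σ X ≤ n < X`, and `K ≤ Kmax = (X/Λ)^(1/48)`: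
`#{n} c (√σ X/Λ)^(1/48) ≤ ∑_{K ≤ Kmax} σ Λ K^48 ≤ σ Λ (X/Λ)^(49/48)`, so `#{n} ≤ (1/c) σ^(1 - 1/96) X ≤ (1/c) √σ X`. Add the
at most `√σ X + 1` integers below `√σ X`. -/
def S_dens : Prop := ∃ C : ℝ, 0 < C ∧ ∀ (Bad : Set ℕ) (Λ σ : ℝ) (K0 : ℕ), 0 < Λ → 0 < σ → σ ≤ 1 →
  (∀ K : ℕ, K0 ≤ K → (({n : ℕ | n ∈ Bad ∧ 9641 * Λ * (K : ℝ) ^ 48 ≤ n ∧
    (n : ℝ) < 9799 * Λ * (K : ℝ) ^ 48}.ncard : ℕ) : ℝ) ≤ σ * Λ * (K : ℝ) ^ 48) →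
  ∃ X0 : ℕ, ∀ X : ℕ, X0 ≤ X → (({n : ℕ | n ∈ Bad ∧ n < X}.ncard : ℕ) : ℝ) ≤ C * Real.sqrt σ * X

/-- [GM 33] `fin` (from `thmA`, `X`, `cls`, `one`, `dens`). Proof. Let `Bad = {n odd : #NN n < n^(1/2-ε)}`. Fix `w ≥ 5`, `V = 2 primorial w`.
For every odd `ν < 2V` take `(b,c,d)` from `cls`, `e = 5b - 2`, `a = 2b - 1`, `X` from `X`, and apply `thmA` (`HypV w V c` holds). For large
`K` and `n ≡ ν mod 2V` with `9641V²K^48 ≤ n < 9799V²K^48`: `2n + 4b - (5b²+1+c²+d²)` is `≥ 0` and divisible by `4V`, `= 4V m`, and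
`4820VK^48 ≤ m < 4900VK^48`. If `n ∈ Bad` then `50 V rr m < #X` by `one`. As `n ↦ m` is injective on the class, the number of
`n ∈ Bad` in the class and the block is at most `C2 V K^48/√w`; there are `V` odd classes modulo `2V`, total `≤ C2 V² K^48/√w`.
Use `dens` with `Λ = V²`, `σ = C2/√w` (`≤ 1` for large `w`) and let `w → ∞`. -/
def S_fin : Prop := ∀ ε : ℝ, 0 < ε → ∀ η : ℝ, 0 < η → ∃ X0 : ℕ, ∀ X : ℕ, X0 ≤ X →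
  (({n : ℕ | (n % 2 = 1 ∧ ¬ (n : ℝ) ^ (1 / 2 - ε) ≤ ((NN n).ncard : ℝ)) ∧ n < X}.ncard : ℕ) : ℝ) ≤ η * X

end Pool.Agent.GM
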